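import Pool.Agent.K1H17.LP.Stm0
import Pool.Agent.Y169.TH.LP

/-! # LP-1: the empty polyhedron (helper24, for project LP of helper17) -/

set_option autoImplicit false

namespace Pool.Agent.K1H24.LP

open Pool.Agent.K1H17.LP

theorem t_EMP : S_EMP := by
  intro r J _ a b hP C
  cases nonempty_fintype J
  let dot : J → (Fin r → ℚ) →ₗ[ℚ] ℚ := fun j => ∑ i, a j i • LinearMap.proj i
  have hdot : ∀ j s, dot j s = ∑ i, a j i * s i := by
    intro j s
    simp only [dot, LinearMap.sum_apply, LinearMap.smul_apply, LinearMap.proj_apply, smul_eq_mul]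
  let l : J → ((Fin r → ℚ) × ℚ) →ₗ[ℚ] ℚ := fun j =>
    -((dot j).comp (LinearMap.fst ℚ _ _) + b j • LinearMap.snd ℚ _ _)
  have hl : ∀ j x, l j x = -(∑ i, a j i * x.1 i + b j * x.2) := by
    intro j x
    simp only [l, LinearMap.neg_apply, LinearMap.add_apply, LinearMap.comp_apply,
      LinearMap.fst_apply, LinearMap.smul_apply, LinearMap.snd_apply, smul_eq_mul, hdot]
  obtain ⟨w, hw, hf⟩ := Pool.Agent.Y169.TH.farkas_fin l (LinearMap.snd ℚ (Fin r → ℚ) ℚ) (by
    rintro ⟨s, t⟩ hst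
    by_contra ht
    push Not at ht
    have ht' : 0 < t := ht
    have hmem : (fun i => s i / t) ∈ Pol a b := by
      intro j
      have h1 := hst j
      rw [hl] at h1
      have h2 : 0 ≤ ∑ i, a j i * s i + b j * t := by
        have h3 : -(∑ i, a j i * s i + b j * t) ≤ 0 := h1
        linarith
      have h4 : ∑ i, a j i * (s i / t) + b j = (∑ i, a j i * s i + b j * t) / t := by
        rw [add_div, mul_div_assoc, div_self ht'.ne', mul_one, Finset.sum_div]
        congr 1
        exact Finset.sum_congr rfl fun i _ => by ring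
      show 0 ≤ ∑ i, a j i * (s i / t) + b j
      rw [h4]
      positivity
    rw [hP] at hmem
    exact hmem)
  obtain ⟨W, hW⟩ : ∃ W : ℝ, W = ∑ j, (w j : ℝ) := ⟨_, rfl⟩
  have hW0 : 0 ≤ W := by
    rw [hW]
    exact Finset.sum_nonneg fun j _ => by exact_mod_cast hw j
  obtain ⟨M0, hM0⟩ := exists_nat_gt (max 0 C * W)
  refine ⟨M0, fun M hM t => ?_⟩
  by_contra hcon
  push Not at hcon
  have h1 := hf (fun i => (t i : ℚ), (M : ℚ))
  have h2 : (M : ℝ) = ∑ j, (w j : ℝ) * -(∑ i, (a j i : ℝ) * t i + M * b j) := by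
    have h3 : (M : ℚ) = ∑ j, w j * -(∑ i, a j i * (t i : ℚ) + b j * (M : ℚ)) := by
      have h4 : (LinearMap.snd ℚ (Fin r → ℚ) ℚ) (fun i => (t i : ℚ), (M : ℚ)) = (M : ℚ) := rfl
      refine (h4.symm.trans h1).trans ?_
      exact Finset.sum_congr rfl fun j _ => by rw [hl]
    have h5 : ((M : ℚ) : ℝ) = ((∑ j, w j * -(∑ i, a j i * (t i : ℚ) + b j * (M : ℚ)) : ℚ) : ℝ) :=
      congrArg (fun q : ℚ => (q : ℝ)) h3
    push_cast at h5
    refine h5.trans ?_
    refine Finset.sum_congr rfl fun j _ => ?_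
    ring
  have h6 : (M : ℝ) ≤ ∑ j, (w j : ℝ) * C := by
    refine h2.le.trans ?_
    apply Finset.sum_le_sum
    intro j _
    have hwj : (0 : ℝ) ≤ w j := by exact_mod_cast hw j
    have h7 := hcon j
    exact mul_le_mul_of_nonneg_left (by linarith) hwj
  rw [← Finset.sum_mul, ← hW] at h6
  have h8 : W * C ≤ max 0 C * W := by
    rw [mul_comm]
    exact mul_le_mul_of_nonneg_right (le_max_right _ _) hW0
  have h9 : (M0 : ℝ) ≤ M := by exact_mod_cast hM
  linarith

end Pool.Agent.K1H24.LP
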