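import Pool.Agent.K1H17.LP.Stm1

/-! # LP-5: at most `#T` members of an adapted family have the same order
(helper24, for project LP of helper17) -/

set_option autoImplicit false

open FF Pool.Agent.W603.LV Pool.Agent.K1H17.TP

namespace Pool.Agent.K1H24.LP

open Pool.Agent.K1H17.LP

theorem ge_sum {k K : Type*} [Field k] [Field K] [Algebra k K] {P : Place k K} {ι : Type*}
    (S : Finset ι) (f : ι → K) (n : ℤ) (h : ∀ i ∈ S, Ge P n (f i)) : Ge P n (∑ i ∈ S, f i) := by
  classical
  induction S using Finset.induction_on with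
  | empty => exact Or.inl (by simp)
  | insert a S ha ih =>
    rw [Finset.sum_insert ha]
    exact (h a (Finset.mem_insert_self _ _)).add (ih fun i hi => h i (Finset.mem_insert_of_mem hi))

theorem ge_smul' {k K : Type*} [Field k] [Field K] [Algebra k K] {P : Place k K} {n : ℤ} {x : K}
    (c : k) (h : Ge P n x) : Ge P n (c • x) := by
  rw [Algebra.smul_def]
  have := (Ge.const (P := P) c).mul h
  rwa [zero_add] at this

theorem t_RES : S_RES := by
  intro k K _ _ _ T _ v s hres κ _ b o hb n F hF
  classical
  by_contra hcard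
  push Not at hcard
  choose π hπ0 hπ using fun t => (v t).surj
  have hx : ∀ (l : F) (t : T), Ge (v t) 0 (b l * π t ^ (s t - n)) := by
    intro l t
    right
    rw [(v t).ord_mul (hb.ne l) (zpow_ne_zero _ (hπ0 t)), (v t).ord_zpow, hπ t]
    have h1 := hb.le l t
    have h2 := hF l l.2
    omega
  choose lam hlam using fun (l : F) (t : T) => hres t _ (hx l t)
  have hdep : ¬ LinearIndependent k lam := by
    intro hli
    have h1 := hli.fintype_card_le_finrank
    rw [Module.finrank_fintype_fun_eq_card, Fintype.card_coe] at h1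
    omega
  obtain ⟨g, hg, l0, hl0⟩ := Fintype.not_linearIndependent_iff.1 hdep
  have hg' : ∀ t, ∑ l, g l * lam l t = 0 := by
    intro t
    have := congrFun hg t
    simpa [Finset.sum_apply] using this
  let c : κ → k := fun l => if h : l ∈ F then g ⟨l, h⟩ else 0
  have hcl : ∀ l : F, c l = g l := fun l => by simp [c]
  have hsum : ∑ i, c i • b i = ∑ l : F, g l • b l := by
    have h1 : ∑ l : F, g l • b l = ∑ l : F, c l • b l :=
      Finset.sum_congr rfl fun l _ => by rw [hcl]
    rw [h1, Finset.sum_coe_sort F fun l => c l • b l]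
    symm
    apply Finset.sum_subset (Finset.subset_univ _)
    intro l _ hl
    simp [c, hl]
  have key : ∀ t, Ge (v t) (n + 1 - s t) (∑ i, c i • b i) := by
    intro t
    have h1 : (∑ i, c i • b i) * π t ^ (s t - n) =
        ∑ l : F, g l • (b l * π t ^ (s t - n) - algebraMap k K (lam l t)) := by
      have h2 : ∑ l : F, g l • (b l * π t ^ (s t - n) - algebraMap k K (lam l t)) =
          ∑ l : F, g l • (b l * π t ^ (s t - n)) - algebraMap k K (∑ l : F, g l * lam l t) := by
        rw [map_sum, ← Finset.sum_sub_distrib]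
        refine Finset.sum_congr rfl fun l _ => ?_
        rw [smul_sub, map_mul, Algebra.smul_def (g l) (algebraMap k K (lam l t))]
      rw [h2, hg' t, map_zero, sub_zero, hsum, Finset.sum_mul]
      exact Finset.sum_congr rfl fun l _ => by rw [smul_mul_assoc]
    have h3 : Ge (v t) 1 ((∑ i, c i • b i) * π t ^ (s t - n)) := by
      rw [h1]
      exact ge_sum _ _ _ fun l _ => ge_smul' _ (hlam l t)
    have h4 : Ge (v t) (n - s t) (π t ^ (n - s t)) := by
      right
      rw [(v t).ord_zpow, hπ t, mul_one]
    have h5 := h3.mul h4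
    have h6 : (∑ i, c i • b i) * π t ^ (s t - n) * π t ^ (n - s t) = ∑ i, c i • b i := by
      rw [mul_assoc, ← zpow_add₀ (hπ0 t)]
      have : s t - n + (n - s t) = 0 := by ring
      rw [this, zpow_zero, mul_one]
    rw [h6] at h5
    exact h5.mono (by omega)
  have h7 := hb.adp c (n + 1) key l0 (by rw [hcl]; exact hl0)
  have h8 := hF l0 l0.2
  omega

end Pool.Agent.K1H24.LP
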